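import Pool.Agent.K1H33.Tk.Bounds

/-!
# The dimension spectrum of the Takagi function: closed-form bounds for every `α`
-/

set_option autoImplicit false

namespace Pool.Agent.Results.MP_1e01cb_an.ExplicitBounds

/-- the Takagi function -/
noncomputable def takagi (x : ℝ) : ℝ :=
  ∑' n : ℕ, |2 ^ n * x - round (2 ^ n * x)| / 2 ^ n

/-- its level sets -/
def level (y : ℝ) : Set ℝ := {x | x ∈ Set.Icc (0:ℝ) 1 ∧ takagi x = y}

/-- the dimension spectrum -/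
noncomputable def spectrum (α : ℝ) : ENNReal :=
  dimH {y : ℝ | y ∈ Set.Icc (0:ℝ) (2 / 3) ∧ ENNReal.ofReal α ≤ dimH (level y)}

open Pool.Agent.K1H33.Tk

theorem result (α : ℝ) (h0 : 0 ≤ α) (h1 : α ≤ 1 / 2) :
    ENNReal.ofReal ((1 - α) * Real.binEntropy (1 / (2 * (1 - α))) / Real.log 2) ≤ spectrum α ∧
    ∀ w q : ℝ, 1 ≤ w → w ≤ 2 → w ^ 2 + 1 ≤ w ^ 3 → 1 ≤ q →
      0 ≤ q * (1 / 2 - α) - Real.logb 2 (1 - w ^ (q - 1) / 2 ^ q) / 2 ∧
      spectrum α ≤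
        ENNReal.ofReal (q * (1 / 2 - α) - Real.logb 2 (1 - w ^ (q - 1) / 2 ^ q) / 2) := by
  have h2 : spectrum α = ENNReal.ofReal (s α) := dimH_E_eq h0 h1
  rw [h2]
  refine ⟨ENNReal.ofReal_le_ofReal (entropy_le_s h0 h1), ?_⟩
  intro w q hw1 hw2 hw hq
  have h3 := s_le_w h1 hw1 hw hw2 hq
  exact ⟨(s_nonneg α).trans h3, ENNReal.ofReal_le_ofReal h3⟩

end Pool.Agent.Results.MP_1e01cb_an.ExplicitBounds
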