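import Pool.Agent.K1H33.Tk.Lower

/-!
# The dimension spectrum of the Takagi function: an exact formula for every `α`

The spectrum is the Legendre transform of the pressure of the numbers of balanced dyadic
rationals with a given value.
-/

set_option autoImplicit false

namespace Pool.Agent.Results.MP_1e01cb_an.SpectrumFormula

open Filter Topology

/-- the Takagi function -/
noncomputable def takagi (x : ℝ) : ℝ :=
  ∑' n : ℕ, |2 ^ n * x - round (2 ^ n * x)| / 2 ^ n

/-- its level sets -/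
def level (y : ℝ) : Set ℝ := {x | x ∈ Set.Icc (0:ℝ) 1 ∧ takagi x = y}

/-- the dimension spectrum -/
noncomputable def spectrum (α : ℝ) : ENNReal :=
  dimH {y : ℝ | y ∈ Set.Icc (0:ℝ) (2 / 3) ∧ ENNReal.ofReal α ≤ dimH (level y)}

/-- the number of the integers `0 ≤ j < 4 ^ k` with exactly `k` binary digits one and
`τ(j / 4 ^ k) = c / 4 ^ k` -/
noncomputable def count (k c : ℕ) : ℕ :=
  Set.ncard {j : ℕ | j < 4 ^ k ∧ (Nat.digits 2 j).sum = k ∧
    takagi ((j : ℝ) / 4 ^ k) = (c : ℝ) / 4 ^ k}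

/-- the moments of these numbers -/
noncomputable def moment (k : ℕ) (q : ℝ) : ℝ := ∑ c ∈ Finset.range (4 ^ k), (count k c : ℝ) ^ q

/-- the number of the values `c / 4 ^ k` which are taken at least `4 ^ (α k)` times -/
noncomputable def rich (k : ℕ) (α : ℝ) : ℕ :=
  Set.ncard {c : ℕ | c < 4 ^ k ∧ (4:ℝ) ^ (α * k) ≤ count k c}

open Pool.Agent.K1H33.Tk

lemma count_eq (k c : ℕ) : count k c = B k c := by
  unfold count B
  rw [← Set.ncard_coe_finset]
  congr 1
  ext j
  rw [Finset.mem_coe, mem_Bal]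
  exact Iff.rfl

lemma moment_eq (k : ℕ) (q : ℝ) : moment k q = Z k q := by
  unfold moment Z
  simp only [count_eq]

lemma rich_eq (k : ℕ) (α : ℝ) : rich k α = N k ((4:ℝ) ^ (α * k)) := by
  classical
  unfold rich N
  rw [← Set.ncard_coe_finset]
  congr 1
  ext c
  simp only [count_eq, Finset.coe_filter, Finset.mem_range]

theorem result : ∃ P : ℝ → ℝ,
    (∀ q : ℝ, 1 ≤ q →
      Tendsto (fun k : ℕ => Real.logb 4 (moment k q) / (k : ℝ)) atTop (𝓝 (P q))) ∧
    (∀ α : ℝ, 0 ≤ α → α ≤ 1 / 2 →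
      0 ≤ sInf ((fun q : ℝ => P q - α * q) '' Set.Ici 1) ∧
      spectrum α = ENNReal.ofReal (sInf ((fun q : ℝ => P q - α * q) '' Set.Ici 1)) ∧
      Tendsto (fun k : ℕ => Real.logb 4 (rich k α) / (k : ℝ)) atTop
        (𝓝 (sInf ((fun q : ℝ => P q - α * q) '' Set.Ici 1)))) ∧
    (∀ α : ℝ, 1 / 2 < α → spectrum α = 0) := by
  refine ⟨P, fun q hq => ?_, fun α h0 h1 => ?_, fun α h => ?_⟩
  · simp only [moment_eq]
    exact P_tendsto (by linarith)
  · have h2 := s_eq h0 h1
    have h3 : (fun q : ℝ => P q - α * q) = fun q : ℝ => P q - q * α := by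
      funext q; ring
    rw [h3, ← h2]
    refine ⟨s_nonneg α, dimH_E_eq h0 h1, ?_⟩
    refine (sk_tendsto h1).congr fun k => ?_
    rw [rich_eq]
    rfl
  · have h2 : spectrum α = dimH (E α) := rfl
    rw [h2, E_empty h]
    exact dimH_empty

end Pool.Agent.Results.MP_1e01cb_an.SpectrumFormula
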